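import Pool.Agent.H545Z.Rigid7

namespace Pool.Agent.Results.MP_1755e3_an.BoundedOnInterval

/-- A vertically rigid function that is bounded on some interval is everywhere of the form
`a + b x` or everywhere of the form `a + b exp (k x)`. -/
theorem result (f : ℝ → ℝ)
    (hrig : ∀ c : ℝ, 0 < c → ∃ φ : EuclideanSpace ℝ (Fin 2) ≃ᵢ EuclideanSpace ℝ (Fin 2),
      φ '' Set.range (fun x : ℝ => (WithLp.toLp 2 ![x, c * f x] : EuclideanSpace ℝ (Fin 2)))
        = Set.range (fun x : ℝ => (WithLp.toLp 2 ![x, f x] : EuclideanSpace ℝ (Fin 2))))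
    (hb : ∃ α β M : ℝ, α < β ∧ ∀ x : ℝ, α < x → x < β → |f x| ≤ M) :
    ∃ a b k : ℝ, (∀ x : ℝ, f x = a + b * x) ∨ (∀ x : ℝ, f x = a + b * Real.exp (k * x)) := by
  obtain ⟨α, β, M, h1, h2⟩ := hb
  exact Pool.Agent.H545Z.Rigid.bounded_thm (Pool.Agent.H545Z.Rigid.rig_of_isom hrig) h1
    (fun x hx => h2 x hx.1 hx.2)

end Pool.Agent.Results.MP_1755e3_an.BoundedOnInterval
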