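import Pool.Agent.H545Z.Rigid7

namespace Pool.Agent.Results.MP_1755e3_an.NonDenseGraph

/-- A vertically rigid function whose graph is not dense in the plane is affine, or, after
subtracting a constant, vertically rigid via horizontal translations. -/
theorem result (f : ℝ → ℝ)
    (hrig : ∀ c : ℝ, 0 < c → ∃ φ : EuclideanSpace ℝ (Fin 2) ≃ᵢ EuclideanSpace ℝ (Fin 2),
      φ '' Set.range (fun x : ℝ => (WithLp.toLp 2 ![x, c * f x] : EuclideanSpace ℝ (Fin 2)))
        = Set.range (fun x : ℝ => (WithLp.toLp 2 ![x, f x] : EuclideanSpace ℝ (Fin 2))))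
    (hd : ¬ Dense (Set.range (fun x : ℝ => (x, f x)))) :
    (∃ a b : ℝ, ∀ x : ℝ, f x = a + b * x) ∨
      (∃ a : ℝ, ∀ c : ℝ, 0 < c → ∃ u : ℝ, ∀ x : ℝ, f (x + u) - a = c * (f x - a)) := by
  rw [Pool.Agent.H545Z.Rigid.gr_eq] at hd
  exact Pool.Agent.H545Z.Rigid.structure_thm (Pool.Agent.H545Z.Rigid.rig_of_isom hrig) hd

end Pool.Agent.Results.MP_1755e3_an.NonDenseGraph
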